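import Pool.Agent.W743.HP.Stm

/-!
Project HP, part BASE: the radial solution is a solution.
-/

set_option autoImplicit false

open Set Filter Topology MeasureTheory

namespace Pool.Agent.W391.HP

open Pool.Agent.W743.HP

section

variable {ι : Type} [DecidableEq ι]

theorem ue_apply (i j : ι) : (ue i : L1 ι) j = if j = i then 1 else 0 := by
  unfold ue
  split_ifs with h
  · subst h
    simp
  · exact lp.single_apply_ne 1 i 1 h

/-- The coordinate functional. -/
noncomputable def co (k : ι) : L1 ι →L[ℝ] ℝ :=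
  lift (fun i => if i = k then (1 : ℝ) else 0) 1 fun i => by
    split_ifs <;> simp

theorem co_apply (k : ι) (a : L1 ι) : co k a = a k := by
  rw [co, lift_apply, tsum_eq_single k]
  · simp
  · intro j hj
    simp [hj]

theorem co_ue (k i : ι) : co k (ue i) = if i = k then (1 : ℝ) else 0 := lift_ue _ _ _ _

end

theorem RR_zero (a : E) (n : ℕ) : RR a (n, 0) = 0 := by
  have h : (co (n, 0)).comp RR = 0 := by
    refine L1.ext_ue fun i => ?_
    have h1 : RR (ue i) = ue (i.1, i.2 + 1) := lift_ue _ _ _ _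
    simp [h1, co_ue]
  have h2 := DFunLike.congr_fun h a
  rw [ContinuousLinearMap.comp_apply, co_apply] at h2
  exact h2

theorem RR_succ (a : E) (n j : ℕ) : RR a (n, j + 1) = a (n, j) := by
  have h : (co (n, j + 1)).comp RR = co (n, j) := by
    refine L1.ext_ue fun i => ?_
    have h1 : RR (ue i) = ue (i.1, i.2 + 1) := lift_ue _ _ _ _
    simp [h1, co_ue, Prod.ext_iff]
  have h2 := DFunLike.congr_fun h a
  rw [ContinuousLinearMap.comp_apply, co_apply, co_apply] at h2
  exact h2

theorem RR_sh (a : E) (n j : ℕ) : RR a (n, j) = sh (fun i => a (n, i)) j := by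
  cases j with
  | zero => rw [RR_zero]; simp [sh]
  | succ j => rw [RR_succ]; simp [sh]

theorem SS_ue0 : SS (ue 0) = ue 0 := by
  have h1 : SS (ue 0) = (1 / (4 * ((0 : ℕ) : ℝ) + 1) : ℝ) • (ue 0 : Q) := lift_ue _ _ _ _
  rw [h1]
  simp

theorem BB_ue0 : BB (ue 0) (ue 0) = ue (0, 0) := by
  have h1 : BB (ue 0) (ue 0) = ue ((0 - 0) + (0 - 0), 4 * min 0 0) := lift₂_ue _ _ _ _ _ _
  rw [h1]
  simp

theorem RR_ue (i : ℕ × ℕ) : RR (ue i) = ue (i.1, i.2 + 1) := lift_ue _ _ _ _

theorem XX_ue0 : XX (ue 0) = ue (0, 1) := by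
  rw [XX, SS_ue0, BB_ue0, RR_ue]

theorem mulE_ue (i k : ℕ × ℕ) : mulE (ue i) (ue k) = (1 / 2 : ℝ) • ue (i.1 + k.1, i.2 + k.2) +
    (1 / 2 : ℝ) • ue ((i.1 - k.1) + (k.1 - i.1), i.2 + k.2 + 4 * min i.1 k.1) :=
  lift₂_ue _ _ _ _ _ _

theorem mulE_01 (a : E) : mulE (ue (0, 1)) a = RR a := by
  have h : mulE (ue (0, 1)) = RR := by
    refine L1.ext_ue fun k => ?_
    rw [mulE_ue, RR_ue]
    simp only [zero_add, Nat.zero_sub, Nat.sub_zero, Nat.zero_min, mul_zero, add_zero,
      add_comm 1 k.2]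
    rw [← add_smul]
    norm_num
  rw [h]

theorem mulE_00 (a : E) : mulE (ue (0, 0)) a = a := by
  have h : mulE (ue (0, 0)) = ContinuousLinearMap.id ℝ E := by
    refine L1.ext_ue fun k => ?_
    rw [mulE_ue]
    simp only [zero_add, Nat.zero_sub, Nat.sub_zero, Nat.zero_min, mul_zero, add_zero]
    rw [← add_smul]
    norm_num
  rw [h]
  rfl

theorem ph_base (y : ℝ) : ph 0 (y • ue 0) = ue 0 := by
  have h1 : PP (ue 0) = if 0 < 2 then 0 else ue 0 := lift_ue _ _ _ _
  rw [ph, map_smul, h1]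
  simp

theorem base : S_BD → S_REG → S_TC → S_BASE := by
  intro hBD hREG hTC α y m hα hy hy1 hG hG1 hm
  have hs : |y / 2| < 1 := by
    rw [abs_of_pos (by positivity)]
    linarith
  obtain ⟨r1, r2, -⟩ := hREG.1 0 α (y / 2) hα hs
  have hS0 : HasSum (fun j : ℕ => c 0 α j * (y / 2) ^ j) (G 0 α (y / 2)) := r1.of_abs.hasSum
  have hS1 : HasSum (fun j : ℕ => ((j : ℝ) + 1) * c 0 α (j + 1) * (y / 2) ^ j) (G1 0 α (y / 2)) :=
    r2.of_abs.hasSum
  -- the coordinates of `TT m`
  have hT0 : ∀ j, TT m (0, j + 1) = uh α y (j + 1) := by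
    intro j
    rw [(hTC m 0).1 j, hm 0 j, if_pos rfl, mh]
    have h1 : ((j : ℝ) + 1) ≠ 0 := by positivity
    push_cast
    field_simp
    ring
  have hTn : ∀ n j, n ≠ 0 → TT m (n, j) = 0 := by
    intro n j hn
    cases j with
    | zero =>
      rw [(hTC m n).2.1]
      have h1 : ∀ j : ℕ, (1 / 2 : ℝ) ^ (j + 1) / ((4 * n + j + 1) * (j + 1)) * m (n, j) = 0 := by
        intro j
        rw [hm n j, if_neg hn, mul_zero]
      simp only [h1, tsum_zero]
    | succ j =>
      rw [(hTC m n).1 j, hm n j, if_neg hn]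
      simp
  have hT00 : TT m (0, 0) = uh α y 0 - 1 := by
    have h1 : HasSum (fun j : ℕ => (1 / 2 : ℝ) ^ j * uh α y j) 1 := by
      have h2 := hS0.div_const (G 0 α (y / 2))
      rw [div_self hG] at h2
      refine h2.congr_fun fun j => ?_
      rw [uh, div_pow y 2 j, one_div, inv_pow]
      ring
    have h3 := (hTC m 0).2.2.1
    have h4 : HasSum (fun j : ℕ => (1 / 2 : ℝ) ^ j * uh α y j - (1 / 2 : ℝ) ^ j * TT m (0, j))
        (1 - 0) := h1.sub h3
    have h5 : HasSum (fun j : ℕ => (1 / 2 : ℝ) ^ j * uh α y j - (1 / 2 : ℝ) ^ j * TT m (0, j))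
        ((1 / 2 : ℝ) ^ 0 * uh α y 0 - (1 / 2 : ℝ) ^ 0 * TT m (0, 0)) := by
      refine hasSum_single 0 fun j hj => ?_
      obtain ⟨k, rfl⟩ := Nat.exists_eq_succ_of_ne_zero hj
      rw [hT0 k]
      ring
    have h6 := h4.unique h5
    simp only [pow_zero, one_mul, sub_zero] at h6
    linarith
  have hy0 : ((y • ue 0 : Q) 0 : ℝ) = y := by
    rw [lp.coeFn_smul, Pi.smul_apply, ue_apply]
    simp
  have hy1' : ((y • ue 0 : Q) 1 : ℝ) = 0 := by
    rw [lp.coeFn_smul, Pi.smul_apply, ue_apply]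
    simp
  have hU : UU (y • ue 0, m) = ue (0, 0) + TT m := by
    rw [UU]
    simp only [hy1', zero_smul, add_zero]
  have hUc : ∀ n j, (ue (0, 0) + TT m : E) (n, j) = if n = 0 then uh α y j else 0 := by
    intro n j
    rw [lp.coeFn_add, Pi.add_apply, ue_apply]
    by_cases hn : n = 0
    · subst hn
      cases j with
      | zero => rw [hT00]; simp
      | succ j => rw [hT0]; simp
    · rw [hTn n j hn]
      simp [hn]
  refine Prod.ext ?_ ?_
  · -- the first component
    change NN m = 0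
    ext n
    have h1 := (hTC m n).2.2.2
    have h2 : (4 * (n : ℝ) + 1) ≠ 0 := by positivity
    have h3 : NN m n / (4 * n + 1) = 0 := by
      by_cases hn : n = 0
      · subst hn
        refine h1.unique ?_
        have h4 := (hS1.mul_left (-(y / G 0 α (y / 2))))
        rw [hG1, mul_zero] at h4
        refine h4.congr_fun fun j => ?_
        rw [hT0, uh, div_pow y 2 j, one_div, inv_pow]
        have h5 : (2 : ℝ) ^ j ≠ 0 := by positivity
        field_simp
        ring
      · refine h1.unique ?_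
        have h4 : ∀ j : ℕ, -(((j : ℝ) + 1) * (1 / 2) ^ j * TT m (n, j + 1)) = 0 := by
          intro j
          rw [hTn n _ hn]
          ring
        simp only [h4]
        exact hasSum_zero
    rw [div_eq_zero_iff] at h3
    rcases h3 with h3 | h3
    · rw [h3]
      simp
    · exact absurd h3 h2
  · -- the second component
    simp only [FF, ph_base, XX_ue0, BB_ue0, hU, hy0, mulE_01, mulE_00]
    change _ = (0 : E)
    ext ⟨n, j⟩
    have key : (m - (2 * y) • RR m + y ^ 2 • RR (RR m) - (α * y) • (ue (0, 0) + TT m) : E) (n, j) =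
        m (n, j) - 2 * y * RR m (n, j) + y ^ 2 * RR (RR m) (n, j) -
          α * y * (ue (0, 0) + TT m : E) (n, j) := by
      simp only [lp.coeFn_sub, lp.coeFn_add, lp.coeFn_smul, Pi.sub_apply, Pi.add_apply,
        Pi.smul_apply, smul_eq_mul]
    rw [key, hUc]
    have hR : ∀ n j, RR m (n, j) = sh (fun i => m (n, i)) j := RR_sh m
    have hRR : ∀ n j, RR (RR m) (n, j) = sh (fun i => sh (fun i => m (n, i)) i) j := by
      intro n j
      rw [RR_sh]
      simp only [hR]
    rw [hR, hRR]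
    by_cases hn : n = 0
    · subst hn
      have hm0 : (fun i => m (0, i)) = mh α y := by
        funext i
        rw [hm 0 i, if_pos rfl]
      rw [hm0, hm 0 j, if_pos rfl]
      have h1 := hBD.2 0 α j
      rw [if_pos rfl]
      have h0 : ((0 : E) (0, j) : ℝ) = 0 := rfl
      rw [h0]
      rcases j with _ | _ | j
      · simp only [sh, mh, uh, if_true] at h1 ⊢
        push_cast at h1 ⊢
        have h2 : c 0 α 1 = -(α * c 0 α 0) := by
          simp at h1
          linarith
        simp only [zero_add]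
        rw [h2]
        field_simp
        ring
      · simp only [sh, mh, uh] at h1 ⊢
        push_cast at h1 ⊢
        simp at h1 ⊢
        have h2 : c 0 α 2 = -(-(2 * c 0 α 1) + α * c 0 α 1) / 4 := by
          linarith
        rw [h2]
        field_simp
        ring
      · simp only [sh, mh, uh] at h1 ⊢
        push_cast at h1 ⊢
        simp at h1 ⊢
        have h3 : ((j : ℝ) + 1 + 1 + 1) ≠ 0 := by positivity
        have h2 : ((j : ℝ) + 1 + 1 + 1) ^ 2 * c 0 α (j + 1 + 1 + 1) =
            2 * (((j : ℝ) + 1 + 1) ^ 2 * c 0 α (j + 1 + 1)) -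
              ((j : ℝ) + 1) ^ 2 * c 0 α (j + 1) - α * c 0 α (j + 1 + 1) := by
          linarith
        have h4 : -(((j : ℝ) + 1 + 1 + 1) ^ 2 * (c 0 α (j + 1 + 1 + 1) * y ^ (j + 1 + 1 + 1) /
          G 0 α (y / 2))) = -((((j : ℝ) + 1 + 1 + 1) ^ 2 * c 0 α (j + 1 + 1 + 1)) *
            y ^ (j + 1 + 1 + 1) / G 0 α (y / 2)) := by ring
        rw [h4, h2]
        field_simp
        ring
    · have hm0 : (fun i => m (n, i)) = fun _ => 0 := by
        funext i
        rw [hm n i, if_neg hn]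
      rw [hm0, hm n j, if_neg hn, if_neg hn]
      simp [sh]

end Pool.Agent.W391.HP
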